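import Pool.Agent.H76.CE.Del

set_option autoImplicit false

/-!
# A kernel check that no admissible deletion makes a given word trivial
-/

namespace Pool.Agent.H76.CE

/-- multiplication of a reduced word by a letter on the left -/
def push (x : Bool × Bool) : List (Bool × Bool) → List (Bool × Bool)
  | [] => [x]
  | y :: t => bif (x.1 == y.1) && (x.2 != y.2) then t else x :: y :: t

theorem push_reduce (x : Bool × Bool) (L : List (Bool × Bool)) :
    FreeGroup.reduce (x :: L) = push x (FreeGroup.reduce L) := by
  rw [FreeGroup.reduce.cons]
  cases h : FreeGroup.reduce L with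
  | nil => rfl
  | cons y t =>
    obtain ⟨a, b⟩ := x
    obtain ⟨c, d⟩ := y
    cases a <;> cases b <;> cases c <;> cases d <;> rfl

/-- `ck L st i j k`: processing the letters of `L` one after the other (each multiplied on the left of the
reduced word `st`), deleting exactly `i` letters `(true, true)`, `j` letters `(false, true)` and
`k` letters `(true, false)`, one can reach the empty word. -/
def ck : List (Bool × Bool) → List (Bool × Bool) → ℕ → ℕ → ℕ → Bool
  | [], st, i, j, k => st.isEmpty && (i == 0) && (j == 0) && (k == 0)
  | x :: L, st, i, j, k =>
    ck L (push x st) i j k ||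
      bif x.1 then
        (bif x.2 then (match i with | 0 => false | i' + 1 => ck L st i' j k)
        else (match k with | 0 => false | k' + 1 => ck L st i j k'))
      else
        (bif x.2 then (match j with | 0 => false | j' + 1 => ck L st i j' k) else false)

theorem ck_cons (x : Bool × Bool) (L st : List (Bool × Bool)) (i j k : ℕ) :
    ck (x :: L) st i j k = (ck L (push x st) i j k ||
      bif x.1 then
        (bif x.2 then (match i with | 0 => false | i' + 1 => ck L st i' j k)
        else (match k with | 0 => false | k' + 1 => ck L st i j k'))
      else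
        (bif x.2 then (match j with | 0 => false | j' + 1 => ck L st i j' k) else false)) := rfl

theorem ck_sound : ∀ (L suf M : List (Bool × Bool)) (D : Multiset (Bool × Bool)),
    M.Sublist L → (L : Multiset (Bool × Bool)) = (M : Multiset (Bool × Bool)) + D →
    D.count (false, false) = 0 → FreeGroup.reduce (M.reverse ++ suf) = [] →
    ck L (FreeGroup.reduce suf) (D.count (true, true)) (D.count (false, true))
      (D.count (true, false)) = true := by
  intro L
  induction L with
  | nil =>
    intro suf M D hM hD _ hr
    have hM' : M = [] := List.sublist_nil.1 hM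
    subst hM'
    have hD' : D = 0 := by
      have : (0 : Multiset (Bool × Bool)) = 0 + D := hD
      simpa using this.symm
    subst hD'
    have h1 : FreeGroup.reduce suf = [] := by simpa using hr
    rw [h1]
    rfl
  | cons x L ih =>
    intro suf M D hM hD h0 hr
    cases hM with
    | @cons_cons M' _ _ hM' =>
      have h1 : (L : Multiset (Bool × Bool)) = (M' : Multiset (Bool × Bool)) + D := by
        have : x ::ₘ (L : Multiset (Bool × Bool)) =
            x ::ₘ ((M' : Multiset (Bool × Bool)) + D) := by
          rw [← Multiset.cons_add]; exact hD
        exact (Multiset.cons_inj_right _).1 this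
      have h2 := ih (x :: suf) M' D hM' h1 h0 (by
        rw [List.reverse_cons, List.append_assoc] at hr
        exact hr)
      rw [push_reduce] at h2
      rw [ck_cons, h2, Bool.true_or]
    | cons _ hM' =>
      obtain ⟨D₀, hD₀⟩ := Multiset.le_iff_exists_add.1 (Multiset.coe_le.2 hM'.subperm)
      have hD' : D = x ::ₘ D₀ := by
        have : (M : Multiset (Bool × Bool)) + (x ::ₘ D₀) = (M : Multiset (Bool × Bool)) + D := by
          rw [← hD, Multiset.add_cons, ← hD₀]; rfl
        exact (Multiset.add_right_inj.1 this).symm
      subst hD'
      have h0' : D₀.count (false, false) = 0 := by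
        have := Multiset.count_le_of_le (false, false) (Multiset.le_cons_self D₀ x)
        omega
      have h2 := ih suf M D₀ hM' hD₀ h0' hr
      rw [ck_cons, Bool.or_eq_true]
      right
      obtain ⟨a, b⟩ := x
      cases a <;> cases b
      · simp at h0
      · rw [Multiset.count_cons_self, Multiset.count_cons_of_ne (by decide),
          Multiset.count_cons_of_ne (by decide)]
        exact h2
      · rw [Multiset.count_cons_self, Multiset.count_cons_of_ne (by decide),
          Multiset.count_cons_of_ne (by decide)]
        exact h2
      · rw [Multiset.count_cons_self, Multiset.count_cons_of_ne (by decide),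
          Multiset.count_cons_of_ne (by decide)]
        exact h2

/-- `b` -/
abbrev lb : Bool × Bool := (false, true)
/-- `b⁻¹` -/
abbrev lB : Bool × Bool := (false, false)
/-- `c` -/
abbrev lc : Bool × Bool := (true, true)
/-- `c⁻¹` -/
abbrev lC : Bool × Bool := (true, false)

/-- `W = c⁴ b⁻¹ c⁻¹ b c b⁻¹ c⁻¹ b² c b⁻¹ c⁻¹ b² c⁻¹ b²` -/
def W : List (Bool × Bool) :=
  [lc, lc, lc, lc, lB, lC, lb, lc, lB, lC, lb, lb, lc, lB, lC, lb, lb, lC, lb, lb]

theorem ck341 : ck W.reverse [] 3 4 1 = false := by decide +kernel

theorem ck240 : ck W.reverse [] 2 4 0 = false := by decide +kernel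

theorem bar_inj : Function.Injective (bar : Bool × Bool → Bool × Bool) := by
  intro x y h
  have := congrArg bar h
  simpa using this

/-- the multiset of classes: `c` three times, `b` four times, `c⁻¹` once -/
def S8 : Multiset (Bool × Bool) := {lc, lc, lc, lb, lb, lb, lb, lC}

/-- `W` is not a product of conjugates of `c, c, c, b, b, b, b, c⁻¹` in the free group. -/
theorem W_not (X : List (FreeGroup Bool × (Bool × Bool)))
    (hX : (X.map Prod.snd : Multiset (Bool × Bool)) = S8) :
    FreeGroup.mk W ≠ (X.map (fun q => q.1 * FreeGroup.mk [q.2] * q.1⁻¹)).prod := by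
  intro h
  have hD := Dl.of_prod X W h
  rw [hX] at hD
  obtain ⟨L', D, T, hs, hD, hS, h1⟩ := hD
  have hc : ∀ z : Bool × Bool, S8.count z = D.count z + (T.count z + T.count (bar z)) := by
    intro z
    rw [hS, Multiset.count_add, Multiset.count_add]
    congr 2
    have := Multiset.count_map_eq_count' bar T bar_inj (bar z)
    rwa [bar_bar] at this
  have e1 := hc (true, true)
  have e2 := hc (false, true)
  have e3 := hc (true, false)
  have e4 := hc (false, false)
  have s1 : S8.count (true, true) = 3 := by decide
  have s2 : S8.count (false, true) = 4 := by decide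
  have s3 : S8.count (true, false) = 1 := by decide
  have s4 : S8.count (false, false) = 0 := by decide
  simp only [bar, Bool.not_true, Bool.not_false] at e1 e2 e3 e4
  rw [s1] at e1
  rw [s2] at e2
  rw [s3] at e3
  rw [s4] at e4
  have hred : FreeGroup.reduce (L'.reverse.reverse ++ []) = [] := by
    rw [List.reverse_reverse, List.append_nil]
    have := FreeGroup.reduce.sound h1
    simpa using this
  have hD' : (W.reverse : Multiset (Bool × Bool)) =
      (L'.reverse : Multiset (Bool × Bool)) + D := by
    rw [← Multiset.coe_reverse W, ← Multiset.coe_reverse L'] at hD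
    exact hD
  have key := ck_sound W.reverse [] L'.reverse D (List.reverse_sublist.2 hs) hD'
    (by omega) hred
  have r0 : FreeGroup.reduce ([] : List (Bool × Bool)) = [] := rfl
  rw [r0] at key
  have hb : D.count (false, true) = 4 := by omega
  rcases (by omega : (D.count (true, true) = 3 ∧ D.count (true, false) = 1) ∨
    (D.count (true, true) = 2 ∧ D.count (true, false) = 0)) with ⟨h3, h4⟩ | ⟨h3, h4⟩
  · rw [hb, h3, h4, ck341] at key
    exact Bool.false_ne_true key
  · rw [hb, h3, h4, ck240] at key
    exact Bool.false_ne_true key

end Pool.Agent.H76.CE
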