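import Mathlib

set_option autoImplicit false

/-!
# The deletion criterion

If an element of a free group, given by a word `L`, is a product of conjugates of the signed letters
`x₁, …, xₙ`, then one can delete letters from `L` so that the remaining word is trivial, the multiset of
deleted letters being obtained from `{x₁, …, xₙ}` by cancelling pairs of inverse letters.
-/

namespace Pool.Agent.H76.CE

variable {α : Type*}

/-- the inverse letter -/
def bar (y : α × Bool) : α × Bool := (y.1, !y.2)

@[simp] theorem bar_bar (y : α × Bool) : bar (bar y) = y := by simp [bar]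

theorem mk_cons (y : α × Bool) (L : List (α × Bool)) :
    FreeGroup.mk (y :: L) = FreeGroup.mk [y] * FreeGroup.mk L := by
  rw [FreeGroup.mul_mk]; rfl

theorem mk_app (L M : List (α × Bool)) :
    FreeGroup.mk (L ++ M) = FreeGroup.mk L * FreeGroup.mk M := FreeGroup.mul_mk.symm

theorem mk_bar (y : α × Bool) : FreeGroup.mk [y] * FreeGroup.mk [bar y] = 1 := by
  rw [FreeGroup.mul_mk]
  have : FreeGroup.Red.Step ([] ++ (y.1, y.2) :: (y.1, !y.2) :: []) ([] ++ ([] : List (α × Bool))) :=
    FreeGroup.Red.Step.not
  exact Quot.sound this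

theorem mk_bar' (y : α × Bool) : FreeGroup.mk [bar y] * FreeGroup.mk [y] = 1 := by
  have := mk_bar (bar y)
  rwa [bar_bar] at this

/-- a word reducing to a single letter -/
theorem red_single {L : List (α × Bool)} {y : α × Bool} (h : FreeGroup.Red L [y]) :
    ∃ P Q, L = P ++ y :: Q ∧ FreeGroup.mk P = 1 ∧ FreeGroup.mk Q = 1 := by
  induction h using Relation.ReflTransGen.head_induction_on with
  | refl => exact ⟨[], [], rfl, rfl, rfl⟩
  | @head L L' hs _ ih =>
    obtain ⟨P, Q, hPQ, hP, hQ⟩ := ih
    cases hs with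
    | @not M₁ M₂ x b =>
      rcases List.append_eq_append_iff.1 hPQ with ⟨a, rfl, ha⟩ | ⟨a, rfl, ha⟩
      · -- P = M₁ ++ a, M₂ = a ++ y :: Q
        refine ⟨M₁ ++ (x, b) :: (x, !b) :: a, Q, ?_, ?_, hQ⟩
        · rw [ha]; simp
        · rw [mk_app, mk_cons, mk_cons (x, !b), ← mul_assoc (FreeGroup.mk [(x, b)])]
          have := mk_bar (x, b)
          simp only [bar] at this
          rw [this, one_mul, ← mk_app, hP]
      · -- M₁ = P ++ a, y :: Q = a ++ M₂
        cases a with
        | nil =>
          refine ⟨P ++ (x, b) :: (x, !b) :: [], Q, ?_, ?_, hQ⟩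
          · simp only [List.nil_append] at ha
            rw [← ha]; simp
          · rw [mk_app, mk_cons]
            have := mk_bar (x, b)
            simp only [bar] at this
            rw [this, hP, one_mul]
        | cons z a =>
          simp only [List.cons_append, List.cons.injEq] at ha
          obtain ⟨rfl, ha⟩ := ha
          refine ⟨P, a ++ (x, b) :: (x, !b) :: M₂, ?_, hP, ?_⟩
          · simp
          · rw [mk_app, mk_cons, mk_cons (x, !b), ← mul_assoc (FreeGroup.mk [(x, b)])]
            have := mk_bar (x, b)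
            simp only [bar] at this
            rw [this, one_mul, ← mk_app, ← ha, hQ]

theorem mk_single [DecidableEq α] {L : List (α × Bool)} {y : α × Bool}
    (h : FreeGroup.mk L = FreeGroup.mk [y]) :
    ∃ P Q, L = P ++ y :: Q ∧ FreeGroup.mk P = 1 ∧ FreeGroup.mk Q = 1 := by
  apply red_single
  have h1 : FreeGroup.reduce L = FreeGroup.reduce [y] := FreeGroup.reduce.sound h
  have h2 : FreeGroup.Red L (FreeGroup.reduce L) := FreeGroup.reduce.red
  rw [h1] at h2
  exact h2

/-- `Dl L S`: letters can be deleted from `L`, leaving a trivial word, the deleted letters being `S` up to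
inverse pairs -/
def Dl (L : List (α × Bool)) (S : Multiset (α × Bool)) : Prop :=
  ∃ (L' : List (α × Bool)) (D T : Multiset (α × Bool)), L'.Sublist L ∧
    (L : Multiset (α × Bool)) = (L' : Multiset (α × Bool)) + D ∧ S = D + (T + T.map bar) ∧
    FreeGroup.mk L' = 1

theorem Dl.bwd {L₁ L₂ : List (α × Bool)} {y : α × Bool} {S : Multiset (α × Bool)}
    (h : Dl (L₁ ++ L₂) S) : Dl (L₁ ++ y :: bar y :: L₂) S := by
  obtain ⟨L', D, T, hs, hD, hS, h1⟩ := h
  obtain ⟨A, B, rfl, hA, hB⟩ := List.sublist_append_iff.1 hs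
  refine ⟨A ++ y :: bar y :: B, D, T, ?_, ?_, hS, ?_⟩
  · exact hA.append ((hB.cons_cons _).cons_cons _)
  · have e1 : ((L₁ ++ y :: bar y :: L₂ : List (α × Bool)) : Multiset (α × Bool)) =
        y ::ₘ bar y ::ₘ ((L₁ ++ L₂ : List (α × Bool)) : Multiset (α × Bool)) := by
      rw [Multiset.cons_coe, Multiset.cons_coe, Multiset.coe_eq_coe]
      exact (List.perm_middle.trans (List.Perm.cons _ List.perm_middle))
    have e2 : ((A ++ y :: bar y :: B : List (α × Bool)) : Multiset (α × Bool)) =
        y ::ₘ bar y ::ₘ ((A ++ B : List (α × Bool)) : Multiset (α × Bool)) := by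
      rw [Multiset.cons_coe, Multiset.cons_coe, Multiset.coe_eq_coe]
      exact (List.perm_middle.trans (List.Perm.cons _ List.perm_middle))
    rw [e1, e2, hD, Multiset.cons_add, Multiset.cons_add]
  · rw [mk_app, mk_cons, mk_cons (bar y), ← mul_assoc (FreeGroup.mk [y]), mk_bar, one_mul, ← mk_app, h1]

theorem one_of_swap {G : Type*} [Group G] {a b : G} (h : a * b = 1) : b * a = 1 := by
  rw [mul_eq_one_iff_eq_inv] at h
  rw [h]; simp

/-- the one-letter exchange -/
theorem exch [DecidableEq α] {A B : List (α × Bool)} {y : α × Bool}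
    (h : FreeGroup.mk (A ++ y :: B) = 1) :
    ∃ K : List (α × Bool), K.Sublist (A ++ B) ∧
      ((A ++ B : List (α × Bool)) : Multiset (α × Bool)) = bar y ::ₘ (K : Multiset (α × Bool)) ∧
      FreeGroup.mk K = 1 := by
  have h2 : FreeGroup.mk (B ++ A) = FreeGroup.mk [bar y] := by
    rw [mk_app, mk_cons, ← mul_assoc] at h
    have h3 : FreeGroup.mk [y] * (FreeGroup.mk B * FreeGroup.mk A) = 1 := by
      have := one_of_swap h
      have h4 : FreeGroup.mk A * (FreeGroup.mk [y] * FreeGroup.mk B) = 1 := by
        rw [← mul_assoc]; exact h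
      have := one_of_swap h4
      rw [mul_assoc] at this
      exact this
    rw [mk_app]
    have h5 := mk_bar' y
    calc FreeGroup.mk B * FreeGroup.mk A
        = FreeGroup.mk [bar y] * (FreeGroup.mk [y] * (FreeGroup.mk B * FreeGroup.mk A)) := by
          rw [← mul_assoc, h5, one_mul]
      _ = _ := by rw [h3, mul_one]
  obtain ⟨P, Q, hPQ, hP, hQ⟩ := mk_single h2
  rcases List.append_eq_append_iff.1 hPQ with ⟨a, hPa, ha⟩ | ⟨a, hBa, ha⟩
  · -- P = B ++ a, A = a ++ bar y :: Q
    subst hPa
    refine ⟨a ++ Q ++ B, ?_, ?_, ?_⟩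
    · rw [ha]
      refine List.Sublist.append ?_ (List.Sublist.refl _)
      exact (List.Sublist.refl _).append (List.sublist_cons_self _ _)
    · rw [ha, Multiset.cons_coe, Multiset.coe_eq_coe]
      simp only [List.append_assoc, List.cons_append]
      exact List.perm_middle
    · rw [mk_app, mk_app, hQ, mul_one]
      rw [mk_app] at hP
      exact one_of_swap hP
  · cases a with
    | nil =>
      simp only [List.append_nil] at hBa
      simp only [List.nil_append] at ha
      subst hBa
      refine ⟨Q ++ B, ?_, ?_, ?_⟩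
      · rw [← ha]
        exact (List.sublist_cons_self _ _).append (List.Sublist.refl _)
      · rw [← ha, Multiset.cons_coe]; rfl
      · rw [mk_app, hQ, hP, one_mul]
    | cons z a =>
      simp only [List.cons_append, List.cons.injEq] at ha
      obtain ⟨rfl, ha⟩ := ha
      subst hBa
      refine ⟨A ++ (P ++ a), ?_, ?_, ?_⟩
      · refine (List.Sublist.refl _).append ?_
        exact (List.Sublist.refl _).append (List.sublist_cons_self _ _)
      · rw [Multiset.cons_coe, Multiset.coe_eq_coe]
        rw [← List.append_assoc, ← List.append_assoc]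
        exact List.perm_middle
      · rw [mk_app, mk_app, hP, one_mul]
        rw [ha, mk_app] at hQ
        exact one_of_swap hQ

theorem Dl.fwd [DecidableEq α] {L₁ L₂ : List (α × Bool)} {y : α × Bool} {S : Multiset (α × Bool)}
    (h : Dl (L₁ ++ y :: bar y :: L₂) S) : Dl (L₁ ++ L₂) S := by
  obtain ⟨L', D, T, hs, hD, hS, h1⟩ := h
  obtain ⟨A, B, rfl, hA, hB⟩ := List.sublist_append_iff.1 hs
  have e1 : ((L₁ ++ y :: bar y :: L₂ : List (α × Bool)) : Multiset (α × Bool)) =
      y ::ₘ bar y ::ₘ ((L₁ ++ L₂ : List (α × Bool)) : Multiset (α × Bool)) := by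
    rw [Multiset.cons_coe, Multiset.cons_coe, Multiset.coe_eq_coe]
    exact (List.perm_middle.trans (List.Perm.cons _ List.perm_middle))
  rw [e1] at hD
  have mid : ∀ (A B : List (α × Bool)) (z : α × Bool),
      ((A ++ z :: B : List (α × Bool)) : Multiset (α × Bool)) =
        z ::ₘ ((A ++ B : List (α × Bool)) : Multiset (α × Bool)) := by
    intro A B z
    rw [Multiset.cons_coe, Multiset.coe_eq_coe]
    exact List.perm_middle
  -- rest multiset
  have rest : ∀ {B' : List (α × Bool)}, B'.Sublist L₂ → ∃ D₀ : Multiset (α × Bool),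
      ((L₁ ++ L₂ : List (α × Bool)) : Multiset (α × Bool)) =
        ((A ++ B' : List (α × Bool)) : Multiset (α × Bool)) + D₀ := by
    intro B' hB'
    obtain ⟨D₀, h⟩ := Multiset.le_iff_exists_add.1
      (Multiset.coe_le.2 (hA.append hB').subperm)
    exact ⟨D₀, h⟩
  cases hB with
  | cons _ hB =>
    cases hB with
    | cons _ hB =>
      -- both deleted
      obtain ⟨D₀, hD₀⟩ := rest hB
      refine ⟨A ++ B, D₀, T + {y}, hA.append hB, hD₀, ?_, h1⟩
      rw [hD₀] at hD
      have hD' : D = y ::ₘ bar y ::ₘ D₀ := by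
        have : ((A ++ B : List (α × Bool)) : Multiset (α × Bool)) + (y ::ₘ bar y ::ₘ D₀) =
            ((A ++ B : List (α × Bool)) : Multiset (α × Bool)) + D := by
          rw [← hD, Multiset.add_cons, Multiset.add_cons]
        exact (Multiset.add_right_inj.1 this).symm
      rw [hS, hD']
      simp only [Multiset.map_add, Multiset.map_singleton]
      rw [← Multiset.singleton_add y, ← Multiset.singleton_add (bar y)]
      abel
    | @cons_cons B' _ _ hB' =>
      -- y deleted, bar y kept
      obtain ⟨K, hK, hKm, hK1⟩ := exch h1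
      rw [bar_bar] at hKm
      obtain ⟨D₀, hD₀⟩ := rest hB'
      refine ⟨K, y ::ₘ D₀, T, hK.trans (hA.append hB'), ?_, ?_, hK1⟩
      · rw [hD₀, hKm, Multiset.cons_add, Multiset.add_cons]
      · have hD' : D = y ::ₘ D₀ := by
          have : ((A ++ bar y :: B' : List (α × Bool)) : Multiset (α × Bool)) + (y ::ₘ D₀) =
              ((A ++ bar y :: B' : List (α × Bool)) : Multiset (α × Bool)) + D := by
            rw [← hD, mid, hD₀, Multiset.add_cons, Multiset.cons_add]
          exact (Multiset.add_right_inj.1 this).symm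
        rw [hS, hD']
  | @cons_cons B' _ _ hB' =>
    cases hB' with
    | cons _ hB =>
      -- y kept, bar y deleted
      obtain ⟨K, hK, hKm, hK1⟩ := exch h1
      obtain ⟨D₀, hD₀⟩ := rest hB
      refine ⟨K, bar y ::ₘ D₀, T, hK.trans (hA.append hB), ?_, ?_, hK1⟩
      · rw [hD₀, hKm, Multiset.cons_add, Multiset.add_cons]
      · have hD' : D = bar y ::ₘ D₀ := by
          have : ((A ++ y :: B' : List (α × Bool)) : Multiset (α × Bool)) + (bar y ::ₘ D₀) =
              ((A ++ y :: B' : List (α × Bool)) : Multiset (α × Bool)) + D := by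
            rw [← hD, mid, hD₀, Multiset.add_cons, Multiset.cons_add, Multiset.cons_swap]
          exact (Multiset.add_right_inj.1 this).symm
        rw [hS, hD']
    | @cons_cons B'' _ _ hB'' =>
      -- both kept
      refine ⟨A ++ B'', D, T, hA.append hB'', ?_, hS, ?_⟩
      · have e2 : ((A ++ y :: bar y :: B'' : List (α × Bool)) : Multiset (α × Bool)) =
            y ::ₘ bar y ::ₘ ((A ++ B'' : List (α × Bool)) : Multiset (α × Bool)) := by
          rw [Multiset.cons_coe, Multiset.cons_coe, Multiset.coe_eq_coe]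
          exact (List.perm_middle.trans (List.Perm.cons _ List.perm_middle))
        rw [e2, Multiset.cons_add, Multiset.cons_add] at hD
        exact (Multiset.cons_inj_right _).1 ((Multiset.cons_inj_right _).1 hD)
      · rw [mk_app, mk_cons, mk_cons (bar y), ← mul_assoc (FreeGroup.mk [y]), mk_bar, one_mul,
          ← mk_app] at h1
        exact h1

theorem Dl.step [DecidableEq α] {L M : List (α × Bool)} {S : Multiset (α × Bool)}
    (h : FreeGroup.Red.Step L M) : Dl L S ↔ Dl M S := by
  cases h with
  | @not L₁ L₂ x b =>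
    exact ⟨fun h => Dl.fwd (y := (x, b)) h, fun h => Dl.bwd (y := (x, b)) h⟩

theorem Dl.red [DecidableEq α] {L M : List (α × Bool)} {S : Multiset (α × Bool)}
    (h : FreeGroup.Red L M) : Dl L S ↔ Dl M S := by
  induction h with
  | refl => rfl
  | tail _ hs ih => rw [ih, Dl.step hs]

theorem Dl.congr [DecidableEq α] {L M : List (α × Bool)} {S : Multiset (α × Bool)}
    (h : FreeGroup.mk L = FreeGroup.mk M) (hL : Dl L S) : Dl M S := by
  obtain ⟨K, h1, h2⟩ := FreeGroup.Red.exact.1 h
  exact (Dl.red h2).2 ((Dl.red h1).1 hL)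

/-- **deletion criterion** -/
theorem Dl.of_prod [DecidableEq α] : ∀ (X : List (FreeGroup α × (α × Bool))) (L : List (α × Bool)),
    FreeGroup.mk L = (X.map (fun q => q.1 * FreeGroup.mk [q.2] * q.1⁻¹)).prod →
    Dl L (X.map Prod.snd : Multiset (α × Bool)) := by
  have key : ∀ X : List (FreeGroup α × (α × Bool)), ∃ K : List (α × Bool),
      FreeGroup.mk K = (X.map (fun q => q.1 * FreeGroup.mk [q.2] * q.1⁻¹)).prod ∧
      Dl K (X.map Prod.snd : Multiset (α × Bool)) := by
    intro X
    induction X with
    | nil => exact ⟨[], rfl, [], 0, 0, List.Sublist.refl _, by simp, by simp, rfl⟩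
    | cons q X ih =>
      obtain ⟨K, hK, L', D, T, hs, hD, hS, h1⟩ := ih
      refine ⟨q.1.toWord ++ q.2 :: ((q.1⁻¹).toWord ++ K), ?_, ?_⟩
      · rw [mk_app, mk_cons, mk_app, FreeGroup.mk_toWord, FreeGroup.mk_toWord, hK]
        simp [mul_assoc]
      · refine ⟨q.1.toWord ++ ((q.1⁻¹).toWord ++ L'), q.2 ::ₘ D, T, ?_, ?_, ?_, ?_⟩
        · refine (List.Sublist.refl _).append (List.Sublist.cons _ ?_)
          exact (List.Sublist.refl _).append hs
        · simp only [← Multiset.coe_add, ← Multiset.cons_coe] at hD ⊢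
          rw [hD]
          simp only [Multiset.add_cons, Multiset.cons_add, add_assoc]
        · simp only [List.map_cons, ← Multiset.cons_coe]
          rw [hS, Multiset.cons_add]
        · rw [mk_app, mk_app, FreeGroup.mk_toWord, FreeGroup.mk_toWord, h1]
          simp
  intro X L h
  obtain ⟨K, hK, hD⟩ := key X
  exact Dl.congr (hK.trans h.symm) hD

end Pool.Agent.H76.CE
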